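import Pool.Agent.Helper79_HMC.Stmts

/-! # HMC: separating smoothings (module CH1) -/

set_option autoImplicit false

namespace Pool.Agent.HMC.H59

open Pool.Agent.HMC

theorem four_dvd (a b : ℤ) (h : (((2 * a - 2 * b : ℤ)) : ZMod 4) = 0) : a % 2 = b % 2 := by
  rw [ZMod.intCast_zmod_eq_zero_iff_dvd] at h
  obtain ⟨c, hc⟩ := h
  push_cast at hc
  omega

theorem ch1 (hIne : IneStmt) (hSix : SixStmt) (hKst : KstStmt) : Ch1Stmt := by
  classical
  intro S _ G x₀ s
  have : Fintype S := Fintype.ofFinite S
  have h1 := hIne S G
  rw [hSix S G x₀] at h1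
  -- pair the smoothings
  have hupd : ∀ A : S → Bool, A s = true ↔ Function.update (Function.update A s false) s true = A := by
    intro A
    constructor
    · intro h
      funext t
      by_cases ht : t = s
      · subst ht; simp [h]
      · simp [ht]
    · intro h
      rw [← h]; simp
  have h2 : ∀ F : (S → Bool) → ℤ, ∑ A : S → Bool, F A =
      ∑ A ∈ Finset.univ.filter (fun A : S → Bool => A s = false),
        (F A + F (Function.update A s true)) := by
    intro F
    rw [Finset.sum_add_distrib, ← Finset.sum_filter_add_sum_filter_not Finset.univ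
      (fun A : S → Bool => A s = false)]
    congr 1
    symm
    refine Finset.sum_bij (fun A _ => Function.update A s true) ?_ ?_ ?_ ?_
    · intro A _
      simp
    · intro A hA B hB h
      simp only [Finset.mem_filter, Finset.mem_univ, true_and] at hA hB
      funext t
      by_cases ht : t = s
      · rw [ht, hA, hB]
      · have := congrFun h t
        simpa [ht] using this
    · intro A hA
      simp only [Finset.mem_filter, Finset.mem_univ, true_and, Bool.not_eq_false] at hA
      refine ⟨Function.update A s false, by simp, (hupd A).1 hA⟩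
    · intro A _
      rfl
  rw [h2] at h1
  have h3 : G.nSep s = ∑ A ∈ Finset.univ.filter (fun A : S → Bool => A s = false),
      if Quot.mk (G.krel A) (s, false, false) ≠ Quot.mk (G.krel A) (s, true, false) then 1 else 0 := by
    rw [Finset.sum_boole, Nat.cast_id]
    unfold Gem.nSep
    rw [Finset.filter_filter, ← Set.ncard_coe_finset]
    congr 1
    ext A
    simp
  have h4 : ∀ A : S → Bool, A s = false → Gem.nE (Function.update A s true) = Gem.nE A + 1 := by
    intro A hA
    unfold Gem.nE
    have : {t | Function.update A s true t = true} = insert s {t | A t = true} := by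
      ext t
      by_cases ht : t = s
      · subst ht; simp
      · simp [ht]
    rw [this, Set.ncard_insert_of_notMem (by simp [hA]) (Set.toFinite _)]
  have h5 : ∀ A ∈ Finset.univ.filter (fun A : S → Bool => A s = false),
      ((((-1) ^ Gem.nE A * 3 ^ G.nK A + (-1) ^ Gem.nE (Function.update A s true) *
        3 ^ G.nK (Function.update A s true) : ℤ)) : ZMod 4) =
      2 * ((if Quot.mk (G.krel A) (s, false, false) ≠ Quot.mk (G.krel A) (s, true, false)
        then 1 else 0 : ℕ) : ZMod 4) := by
    intro A hA
    have hA' : A s = false := by simpa using hA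
    have hk := hKst S G A s hA' (s, false, false) rfl
    have hf : f0 ((s, false, false) : Fl S) = (s, true, false) := rfl
    rw [hf] at hk
    rw [h4 A hA']
    have h3' : ((3 : ℤ) : ZMod 4) = -1 := by decide
    push_cast
    have h33 : (3 : ZMod 4) = -1 := by decide
    rw [h33]
    split_ifs with h
    · have h6 := hk.2 h
      rw [← h6, pow_succ, pow_succ]
      have h7 : (-1 : ZMod 4) ^ Gem.nE A * (-1) ^ G.nK (Function.update A s true) = 1 ∨
          (-1 : ZMod 4) ^ Gem.nE A * (-1) ^ G.nK (Function.update A s true) = -1 := by
        rw [← pow_add]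
        exact neg_one_pow_eq_or _ _
      have h8 : (-1 : ZMod 4) ^ Gem.nE A * ((-1) ^ G.nK (Function.update A s true) * -1) +
          (-1) ^ Gem.nE A * -1 * (-1) ^ G.nK (Function.update A s true) =
          -2 * ((-1 : ZMod 4) ^ Gem.nE A * (-1) ^ G.nK (Function.update A s true)) := by ring
      rw [h8]
      rcases h7 with h7 | h7 <;> rw [h7] <;> decide
    · have h6 := hk.1 (not_not.1 h)
      rw [h6]
      ring
  have h6 : (((6 * G.pcol x₀ : ℕ) : ℤ) : ZMod 4) = 2 * ((G.nSep s : ℕ) : ZMod 4) := by
    rw [h1, h3]
    push_cast
    rw [Finset.mul_sum]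
    have := Finset.sum_congr rfl h5
    push_cast at this
    exact this
  have h7 := four_dvd (G.nSep s : ℤ) (G.pcol x₀ : ℤ) (by
    push_cast
    rw [← h6]
    push_cast
    have : (6 : ZMod 4) = 2 := by decide
    rw [this]
    ring)
  omega

end Pool.Agent.HMC.H59
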