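import Pool.Agent.Helper79_HMC.Stmts

/-! # HMC: double counting modulo four (module CNT) -/

set_option autoImplicit false

namespace Pool.Agent.HMC.H59

open Pool.Agent.HMC

/-! ### families of functions closed under flips -/

section flips

variable {S : Type} [DecidableEq S]

/-- flip at `s` -/
def fl1 (s : S) (A : S → Bool) : S → Bool := Function.update A s (!A s)

theorem fl1_fl1 (s : S) (A : S → Bool) : fl1 s (fl1 s A) = A := by
  unfold fl1
  simp

theorem fl1_same (s : S) (A : S → Bool) : fl1 s A s = !A s := by simp [fl1]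

theorem fl1_ne {s t : S} (h : t ≠ s) (A : S → Bool) : fl1 s A t = A t := by simp [fl1, h]

/-- half of the functions of a closed family are false at `s` -/
theorem half [Fintype S] (P : (S → Bool) → Prop) [DecidablePred P] (s : S) (h : ∀ A, P A → P (fl1 s A)) :
    2 * (Finset.univ.filter fun A : S → Bool => P A ∧ A s = false).card =
      (Finset.univ.filter fun A : S → Bool => P A).card := by
  have h1 : (Finset.univ.filter fun A : S → Bool => P A).card =
      (Finset.univ.filter fun A : S → Bool => P A ∧ A s = false).card +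
      (Finset.univ.filter fun A : S → Bool => P A ∧ A s = true).card := by
    rw [← Finset.card_union_of_disjoint]
    · congr 1
      ext A
      simp only [Finset.mem_filter, Finset.mem_univ, true_and, Finset.mem_union]
      cases A s <;> simp
    · rw [Finset.disjoint_left]
      intro A hA hB
      simp only [Finset.mem_filter, Finset.mem_univ, true_and] at hA hB
      rw [hA.2] at hB
      exact absurd hB.2 (by decide)
  have h2 : (Finset.univ.filter fun A : S → Bool => P A ∧ A s = false).card =
      (Finset.univ.filter fun A : S → Bool => P A ∧ A s = true).card := by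
    refine Finset.card_bij (fun A _ => fl1 s A) ?_ ?_ ?_
    · intro A hA
      simp only [Finset.mem_filter, Finset.mem_univ, true_and] at hA ⊢
      exact ⟨h A hA.1, by rw [fl1_same, hA.2]; rfl⟩
    · intro A _ B _ hAB
      rw [← fl1_fl1 s A, hAB, fl1_fl1]
    · intro A hA
      simp only [Finset.mem_filter, Finset.mem_univ, true_and] at hA
      refine ⟨fl1 s A, ?_, fl1_fl1 s A⟩
      simp only [Finset.mem_filter, Finset.mem_univ, true_and]
      exact ⟨h A hA.1, by rw [fl1_same, hA.2]; rfl⟩
  omega

/-- the number of functions of a family closed under two different flips is divisible by four -/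
theorem quarter [Fintype S] (P : (S → Bool) → Prop) [DecidablePred P] (s t : S) (hst : s ≠ t)
    (h : ∀ A, P A → P (fl1 s A)) (h' : ∀ A, P A → P (fl1 t A)) :
    4 ∣ (Finset.univ.filter fun A : S → Bool => P A).card := by
  have h1 := half P s h
  have h2 := half (fun A => P A ∧ A s = false) t (fun A hA => ⟨h' A hA.1, by
    rw [fl1_ne hst]; exact hA.2⟩)
  refine ⟨(Finset.univ.filter fun A : S → Bool => (P A ∧ A s = false) ∧ A t = false).card, ?_⟩
  omega

end flips

/-! ### orbits -/

section orb

variable {S : Type} (G : Gem S)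

theorem sig_sig (A : S → Bool) (x : Fl S) : Gem.sig A (Gem.sig A x) = x := by
  unfold Gem.sig
  by_cases h : A x.1 = true
  · rw [if_pos h]
    have : (f0 x).1 = x.1 := rfl
    rw [this, if_pos h, f0_f0]
  · rw [if_neg h]
    have : (f2 x).1 = x.1 := rfl
    rw [this, if_neg h, f2_f2]

theorem lrel_symm (A : S → Bool) {x y : Fl S} (h : G.lrel A x y) : G.lrel A y x := by
  rcases h with h | h
  · left
    rw [← h, G.inv]
  · right
    rw [← h, sig_sig]

theorem rtg_symm {X : Type} {r : X → X → Prop} (hs : ∀ x y, r x y → r y x) {x y : X}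
    (h : Relation.ReflTransGen r x y) : Relation.ReflTransGen r y x := by
  induction h with
  | refl => exact Relation.ReflTransGen.refl
  | tail _ h ih => exact (Relation.ReflTransGen.single (hs _ _ h)).trans ih

theorem mk_eq_iff (A : S → Bool) {x y : Fl S} :
    Quot.mk (G.lrel A) x = Quot.mk (G.lrel A) y ↔ Relation.ReflTransGen (G.lrel A) x y := by
  constructor
  · intro h
    rw [Quot.eq] at h
    induction h with
    | rel x y h => exact Relation.ReflTransGen.single h
    | refl x => exact Relation.ReflTransGen.refl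
    | symm x y _ ih =>
      exact rtg_symm (fun _ _ h => lrel_symm G A h) ih
    | trans x y z _ _ ih1 ih2 => exact ih1.trans ih2
  · intro h
    induction h with
    | refl => rfl
    | tail _ h ih => exact ih.trans (Quot.sound h)

theorem isOrb_flip [DecidableEq S] (A : S → Bool) (T : Set (Fl S)) (h : G.IsOrb A T) (s : S)
    (hs : ∀ x ∈ T, x.1 ≠ s) : G.IsOrb (fl1 s A) T := by
  obtain ⟨x, hx⟩ := h
  refine ⟨x, ?_⟩
  have hT : ∀ y, y ∈ T ↔ Relation.ReflTransGen (G.lrel A) x y := by
    intro y
    rw [hx]
    show Quot.mk (G.lrel A) y = Quot.mk (G.lrel A) x ↔ _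
    rw [eq_comm, mk_eq_iff]
  have hrel : ∀ y ∈ T, ∀ z, G.lrel A y z ↔ G.lrel (fl1 s A) y z := by
    intro y hy z
    unfold Gem.lrel Gem.sig
    rw [fl1_ne (hs y hy)]
  ext y
  show y ∈ T ↔ Quot.mk (G.lrel (fl1 s A)) y = Quot.mk (G.lrel (fl1 s A)) x
  rw [eq_comm, mk_eq_iff, hT]
  constructor
  · intro h
    induction h with
    | refl => exact Relation.ReflTransGen.refl
    | tail h1 h2 ih => exact ih.tail ((hrel _ ((hT _).2 h1) _).1 h2)
  · intro h
    induction h with
    | refl => exact Relation.ReflTransGen.refl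
    | tail h1 h2 ih => exact ih.tail ((hrel _ ((hT _).2 ih) _).2 h2)

end orb

theorem cnt : CntStmt := by
  classical
  intro S _ _ G
  have : Fintype (Set (Fl S)) := Fintype.ofFinite _
  -- the number of loops
  have h1 : ∀ A : S → Bool, G.nL A = ∑ T : Set (Fl S), if G.IsOrb A T then 1 else 0 := by
    intro A
    rw [Finset.sum_boole, Nat.cast_id]
    unfold Gem.nL
    have e : Quot (G.lrel A) ≃ {T : Set (Fl S) // G.IsOrb A T} :=
      Equiv.ofBijective (fun q => ⟨{y | Quot.mk (G.lrel A) y = q}, by
        obtain ⟨x, hx⟩ := Quot.exists_rep q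
        exact ⟨x, by rw [hx]⟩⟩) (by
        constructor
        · intro q q' h
          obtain ⟨x, hx⟩ := Quot.exists_rep q
          have h2 := congrArg Subtype.val h
          have h3 : x ∈ {y | Quot.mk (G.lrel A) y = q} := hx
          have h4 : x ∈ {y | Quot.mk (G.lrel A) y = q'} := by
            rw [← show {y | Quot.mk (G.lrel A) y = q} = {y | Quot.mk (G.lrel A) y = q'} from h2]
            exact h3
          exact hx.symm.trans h4
        · rintro ⟨T, x, hx⟩
          exact ⟨Quot.mk _ x, Subtype.ext hx.symm⟩)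
    rw [Nat.card_congr e, Nat.card_eq_fintype_card, Fintype.card_subtype]
  -- pairs
  have h2 : ∀ P : (S → Bool) → Set (Fl S) → Prop,
      {p : (S → Bool) × Set (Fl S) | P p.1 p.2}.ncard =
        ∑ T : Set (Fl S), (Finset.univ.filter fun A : S → Bool => P A T).card := by
    intro P
    rw [Set.ncard_eq_toFinset_card']
    simp only [Finset.card_filter]
    rw [← Fintype.sum_prod_type_right' (f := fun (A : S → Bool) (T : Set (Fl S)) =>
      if P A T then 1 else 0), ← Finset.card_filter]
    congr 1
    ext p
    simp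
  have h3 : (∑ A : S → Bool, G.nL A) =
      ∑ T : Set (Fl S), (Finset.univ.filter fun A : S → Bool => G.IsOrb A T).card := by
    simp only [h1]
    rw [Finset.sum_comm]
    refine Finset.sum_congr rfl fun T _ => ?_
    rw [Finset.card_filter]
  have h4 : G.nFull = ∑ T : Set (Fl S), (Finset.univ.filter fun A : S → Bool =>
      G.IsOrb A T ∧ ∀ s, ∃ x ∈ T, x.1 = s).card := by
    have := h2 (fun A T => G.IsOrb A T ∧ ∀ s, ∃ x ∈ T, x.1 = s)
    unfold Gem.nFull
    convert this
  have h5 : ∀ s, G.nMiss s = ∑ T : Set (Fl S), (Finset.univ.filter fun A : S → Bool =>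
      G.IsOrb A T ∧ A s = false ∧ ∀ x ∈ T, x.1 ≠ s).card := by
    intro s
    have := h2 (fun A T => G.IsOrb A T ∧ A s = false ∧ ∀ x ∈ T, x.1 ≠ s)
    unfold Gem.nMiss
    convert this
  show (∑ A : S → Bool, G.nL A) ≡ (G.nFull + 2 * ∑ s, G.nMiss s) [MOD 4]
  simp only [h5]
  rw [h3, h4, Finset.sum_comm, Finset.mul_sum, ← Finset.sum_add_distrib]
  -- one set
  have key : ∀ T : Set (Fl S), (Finset.univ.filter fun A : S → Bool => G.IsOrb A T).card ≡
      (Finset.univ.filter fun A : S → Bool => G.IsOrb A T ∧ ∀ s, ∃ x ∈ T, x.1 = s).card +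
      2 * ∑ s : S, (Finset.univ.filter fun A : S → Bool =>
        G.IsOrb A T ∧ A s = false ∧ ∀ x ∈ T, x.1 ≠ s).card [MOD 4] := by
    intro T
    have k1 : ∀ s : S, 2 * (Finset.univ.filter fun A : S → Bool =>
        G.IsOrb A T ∧ A s = false ∧ ∀ x ∈ T, x.1 ≠ s).card =
        if (∀ x ∈ T, x.1 ≠ s) then (Finset.univ.filter fun A : S → Bool => G.IsOrb A T).card
        else 0 := by
      intro s
      split_ifs with h
      · rw [← half (fun A => G.IsOrb A T) s (fun A hA => isOrb_flip G A T hA s h)]
        congr 2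
        ext A
        simp only [Finset.mem_filter, Finset.mem_univ, true_and]
        exact ⟨fun h' => ⟨h'.1, h'.2.1⟩, fun h' => ⟨h'.1, h'.2, h⟩⟩
      · rw [Finset.filter_eq_empty_iff.2 (fun A _ hA => h hA.2.2)]
        rfl
    rw [Finset.mul_sum]
    simp only [k1]
    rw [← Finset.sum_filter, Finset.sum_const, smul_eq_mul]
    -- the set of the squares which are not met
    rcases Nat.lt_trichotomy (Finset.univ.filter fun s : S => ∀ x ∈ T, x.1 ≠ s).card 1 with h | h | h
    · have h0 : (Finset.univ.filter fun s : S => ∀ x ∈ T, x.1 ≠ s).card = 0 := by omega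
      rw [h0, zero_mul, add_zero]
      rw [Finset.card_eq_zero, Finset.filter_eq_empty_iff] at h0
      have h7 : ∀ s, ∃ x ∈ T, x.1 = s := by
        intro s
        have := h0 (Finset.mem_univ s)
        push Not at this
        exact this
      have h8 : (Finset.univ.filter fun A : S → Bool => G.IsOrb A T ∧ ∀ s, ∃ x ∈ T, x.1 = s) =
          Finset.univ.filter fun A : S → Bool => G.IsOrb A T := by
        ext A
        simp only [Finset.mem_filter, Finset.mem_univ, true_and]
        exact ⟨fun h' => h'.1, fun h' => ⟨h', h7⟩⟩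
      rw [h8]
    · rw [h, one_mul]
      obtain ⟨s, hs⟩ := Finset.card_eq_one.1 h
      have h9 : s ∈ Finset.univ.filter fun s : S => ∀ x ∈ T, x.1 ≠ s := by rw [hs]; simp
      have h9' : ∀ x ∈ T, x.1 ≠ s := by simpa using h9
      have h8 : (Finset.univ.filter fun A : S → Bool => G.IsOrb A T ∧ ∀ s, ∃ x ∈ T, x.1 = s) =
          ∅ := by
        rw [Finset.filter_eq_empty_iff]
        rintro A _ ⟨_, h10⟩
        obtain ⟨x, hx, hx2⟩ := h10 s
        exact h9' x hx hx2
      rw [h8, Finset.card_empty, zero_add]
    · obtain ⟨s, hs, t, ht, hst⟩ := Finset.one_lt_card.1 h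
      have hs' : ∀ x ∈ T, x.1 ≠ s := by simpa using hs
      have ht' : ∀ x ∈ T, x.1 ≠ t := by simpa using ht
      have h4 := quarter (fun A => G.IsOrb A T) s t hst
        (fun A hA => isOrb_flip G A T hA s hs') (fun A hA => isOrb_flip G A T hA t ht')
      have h8 : (Finset.univ.filter fun A : S → Bool => G.IsOrb A T ∧ ∀ s, ∃ x ∈ T, x.1 = s) =
          ∅ := by
        rw [Finset.filter_eq_empty_iff]
        rintro A _ ⟨_, h10⟩
        obtain ⟨x, hx, hx2⟩ := h10 s
        exact hs' x hx hx2
      rw [h8, Finset.card_empty, zero_add]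
      exact ((Nat.modEq_zero_iff_dvd.2 h4).trans
        (Nat.modEq_zero_iff_dvd.2 (Dvd.dvd.mul_left h4 _)).symm)
  exact Nat.ModEq.sum (fun T _ => key T)

end Pool.Agent.HMC.H59
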