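import Pool.Agent.Helper79_HMC.Stmts

/-! # HMC: `P(3) = 6 p` (module SIX) -/

set_option autoImplicit false

namespace Pool.Agent.HMC.H59

open Pool.Agent.HMC

theorem exists_perm : ∀ i j : Fin 3, i ≠ j → ∃ π : Equiv.Perm (Fin 3), π 2 = i ∧ π 0 = j := by
  decide

theorem perm_ext : ∀ π π' : Equiv.Perm (Fin 3), π 2 = π' 2 → π 0 = π' 0 → π = π' := by
  decide

theorem isCol_comp {S : Type} {G : Gem S} {c : Fl S → Fin 3} (hc : G.IsCol c)
    (π : Equiv.Perm (Fin 3)) : G.IsCol (fun x => π (c x)) := by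
  intro x
  obtain ⟨h1, h2, h3⟩ := hc x
  exact ⟨congrArg π h1, congrArg π h2, fun h => h3 (π.injective h)⟩

theorem six : SixStmt := by
  intro S _ G x₀
  have h1 : {c : Fl S → Fin 3 | G.IsCol c} =
      (fun p : Equiv.Perm (Fin 3) × (Fl S → Fin 3) => fun x => p.1 (p.2 x)) ''
        ((Set.univ : Set (Equiv.Perm (Fin 3))) ×ˢ
          {c : Fl S → Fin 3 | G.IsCol c ∧ c x₀ = 2 ∧ c (f0 x₀) = 0}) := by
    ext c
    constructor
    · intro hc
      have hc' : G.IsCol c := hc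
      have hne : c x₀ ≠ c (f0 x₀) := fun h => (hc' x₀).2.2 h.symm
      obtain ⟨π, hπ1, hπ2⟩ := exists_perm _ _ hne
      refine ⟨(π, fun x => π.symm (c x)), ⟨Set.mem_univ _, isCol_comp hc' π.symm, ?_, ?_⟩, ?_⟩
      · show π.symm (c x₀) = 2
        rw [← hπ1, Equiv.symm_apply_apply]
      · show π.symm (c (f0 x₀)) = 0
        rw [← hπ2, Equiv.symm_apply_apply]
      · funext x
        exact π.apply_symm_apply _
    · rintro ⟨⟨π, c'⟩, ⟨_, hc', _, _⟩, rfl⟩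
      exact isCol_comp hc' π
  have hinj : Set.InjOn (fun p : Equiv.Perm (Fin 3) × (Fl S → Fin 3) => fun x => p.1 (p.2 x))
      ((Set.univ : Set (Equiv.Perm (Fin 3))) ×ˢ
          {c : Fl S → Fin 3 | G.IsCol c ∧ c x₀ = 2 ∧ c (f0 x₀) = 0}) := by
    rintro ⟨π, c⟩ ⟨_, hc, hc1, hc2⟩ ⟨π', c'⟩ ⟨_, hc', hc1', hc2'⟩ h
    have h2 := congrFun h x₀
    have h3 := congrFun h (f0 x₀)
    simp only at h2 h3 hc1 hc2 hc1' hc2'
    rw [hc1, hc1'] at h2
    rw [hc2, hc2'] at h3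
    have h4 : π = π' := perm_ext π π' h2 h3
    subst h4
    congr 1
    funext x
    exact π.injective (congrFun h x)
  rw [h1, hinj.ncard_image, Set.ncard_prod, Set.ncard_univ, Nat.card_perm,
    Nat.card_fin]
  rfl

end Pool.Agent.HMC.H59
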